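import Pool.Agent.Lib.MP_0ffb5f_gt.Enl

set_option autoImplicit false
open MeasureTheory Set ENNReal ProbabilityTheory

namespace Pool.Agent.Results.MP_0ffb5f_gt.CenteredBalancing

/-- The vector balancing constant of `V` for `N` vectors of the Euclidean unit ball of `ℝⁿ`:
the supremum over all `u₁, …, u_N` of norm at most one of the minimum over all signs of the gauge
of the signed sum. For `N = n` this is `β(B₂ⁿ, V)`. -/
noncomputable def beta (N : ℕ) {n : ℕ} (V : Set (EuclideanSpace ℝ (Fin n))) : ℝ≥0∞ :=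
  ⨆ u : Fin N → EuclideanSpace ℝ (Fin n), ⨆ _ : ∀ i, ‖u i‖ ≤ 1,
    ⨅ ε : Fin N → ℤˣ, ENNReal.ofReal (gauge V (∑ i, (ε i : ℤ) • u i))

/-- Positive answer to Q1, with the explicit function `g(p) = 500 / p`. -/
theorem result :
    ∃ g : ℝ → ℝ, (∀ p, g p = 500 / p) ∧ (∀ p ∈ Ioc (0 : ℝ) 1, 0 ≤ g p) ∧
      AntitoneOn g (Ioc 0 1) ∧
      ∀ n : ℕ, 1 ≤ n → ∀ V : Set (EuclideanSpace ℝ (Fin n)), Convex ℝ V → IsCompact V →
        (0 : EuclideanSpace ℝ (Fin n)) ∈ interior V →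
        ∫ x in V, x ∂(stdGaussian (EuclideanSpace ℝ (Fin n))) = 0 →
        (stdGaussian (EuclideanSpace ℝ (Fin n)) V).toReal ∈ Ioc (0 : ℝ) 1 ∧
        ∀ N : ℕ, beta N V ≤
          ENNReal.ofReal (g (stdGaussian (EuclideanSpace ℝ (Fin n)) V).toReal) := by
  refine ⟨fun p => 500 / p, fun p => rfl, fun p hp => ?_, fun p hp q hq hpq => ?_,
    fun n hn V hV hVc h0 hbar => ?_⟩
  · have := hp.1
    positivity
  · have := hp.1
    simp only
    gcongr
  · have hpos : 0 < stdGaussian (EuclideanSpace ℝ (Fin n)) V := Pool.Agent.VB.gauss_pos ⟨0, h0⟩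
    refine ⟨⟨ENNReal.toReal_pos hpos.ne' (measure_ne_top _ _), measureReal_le_one⟩, fun N => ?_⟩
    have : Nonempty (Fin n) := ⟨⟨0, hn⟩⟩
    refine iSup_le fun u => iSup_le fun hu => ?_
    obtain ⟨ε, hε⟩ := Pool.Agent.VB.balance hVc hV h0 hbar N u hu
    exact (iInf_le _ ε).trans (ENNReal.ofReal_le_ofReal hε)

end Pool.Agent.Results.MP_0ffb5f_gt.CenteredBalancing
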